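import Pool.Agent.Helper62.Gen.Final

namespace Pool.Agent.Results.MP_5e9226_co.GenusAlternating

open Pool.Agent.Helper62.Gen

/-- For every `n ≥ 978` the largest Euler characteristic `χ(Aₙ)` of a closed orientable surface in
which some Cayley graph of the alternating group `Aₙ` embeds satisfies
`χ(Aₙ) ≥ -|Aₙ|/84 - (27/4) |Aₙ|/n`. -/
theorem result : ∀ n : ℕ, 978 ≤ n →
    -(Nat.card (alternatingGroup (Fin n)) : ℝ) / 84
      - 27 / 4 * (Nat.card (alternatingGroup (Fin n)) : ℝ) / n
      ≤ (chi (alternatingGroup (Fin n)) : ℝ) :=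
  chi_alternating

end Pool.Agent.Results.MP_5e9226_co.GenusAlternating
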